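import Pool.Agent.Work.MP_343d73_gt.Final2

/-!
# MP_343d73_gt, Q1: the treewidth of a 3-manifold bounds the treewidth of its JSJ dual graph

Setting. Let `M` be a compact connected orientable irreducible 3-manifold with empty or toroidal
boundary, `G` its fundamental group, `T` any triangulation of `M`, and let `T'` be a triangulation
of `M` in which the JSJ tori are unions of faces. Everything is stated in the universal covers:
`X` is the lift of `T`, `Y` is the lift of `T'`, `D` is the set of the faces of `T'` in the JSJ
tori, lifted to `Y` (every face is seen from both sides), and `G` acts by deck transformations.

Definitions (files `Pool/Agent/Work/MP_343d73_gt/Core.lean` and `Core2.lean`):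

* `Tri`: oriented generalised triangulation; `Tri.IsDeck`: `G` acts freely, preserving
  orientation, with finitely many orbits of tetrahedra; `Tri.SimplyConn`: connected and simply
  connected; `Tri.H2Zero`: the second real cohomology of the universal cover vanishes (by the
  sphere theorem and the Hurewicz theorem this is the meaning of `M` irreducible, `π₂(M) = 0`);
  `Tri.ToralBoundary`: the boundary tori are incompressible (automatic if there is a JSJ torus).
* `Tri.IsJSJ`: `D` is the preimage of a system of JSJ tori: an embedded closed surface in the
  interior, two-sided, whose components are incompressible tori and such that, unless there is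
  only one piece, no piece is the product of a torus and an interval and the usual criterion for
  JSJ tori holds (Aschenbrenner, Friedl and Wilton, 3-manifold groups, Proposition 1.6.2, in group
  terms): every piece is Seifert fibred (its group has an infinite cyclic normal subgroup) or
  acylindrical (hyperbolic pieces are), and the fibres of adjacent Seifert fibred pieces do not
  match; alternatively it suffices that every essential torus can be moved into a piece.
* `Tri.dualGraph X G`: the dual graph of `T`; `Tri.pieceGraph Y G D`: the dual graph of the JSJ
  decomposition; `TreewidthLE`: the treewidth is at most `k`.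

There is no hypothesis on the gluing maps along the JSJ tori.
-/

set_option autoImplicit false

namespace Pool.Agent.Results.MP_343d73_gt.TorusTreewidth

open Pool.Agent.MP_343d73

/-- If the dual graph of some triangulation of `M` has treewidth at most `k`, then the dual graph
of the JSJ decomposition of `M` has treewidth at most `1280 (k + 1)`. -/
theorem result {τ V τ' V' G : Type} [Group G] [MulAction G τ] [MulAction G V] [MulAction G τ']
    [MulAction G V'] (X : Tri τ V) (Y : Tri τ' V') (D : Set (τ' × Fin 4))
    (hX : X.IsDeck G) (hX1 : X.SimplyConn) (hX2 : X.H2Zero)
    (hXb : D.Nonempty → X.ToralBoundary G)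
    (hY : Y.IsDeck G) (hY1 : Y.SimplyConn) (hY2 : Y.H2Zero) (hD : Y.IsJSJ G D)
    (k : ℕ) (hk : TreewidthLE (X.dualGraph G) k) :
    TreewidthLE (Y.pieceGraph G D) (1280 * (k + 1)) :=
  final2 X Y D hX hX1 hX2 hXb hY hY1 hY2 hD k hk

end Pool.Agent.Results.MP_343d73_gt.TorusTreewidth
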